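import Pool.Agent.Helper28.HN.Cls

/-!
MP_143e28_ag, project HW: the class of curves.
-/

set_option autoImplicit false

namespace Pool.Agent.Helper54.HW

open Polynomial Pool.Agent.Helper54.HZ Pool.Agent.Helper28.HN

/-- `(x, y, f)` presents `F` as the function field of the curve `y ^ q - y = f (x)`, `q = p ^ s > 1`, in characteristic `p`, all pole
orders of `f` (on the projective line) prime to `p`; its genus is `g`: `2 g = (q - 1) (∑ (m_P + 1) - 2)`, the sum over the poles `P`
of `f`, `m_P` the pole order -/
structure PresQ (k F : Type*) [Field k] [Field F] [Algebra k F] (p s g : ℕ) (x y : F) (f : RatFunc k) : Prop where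
  pos : 1 ≤ s
  trans : Transcendental k x
  gen : IntermediateField.adjoin k {x, y} = ⊤
  poles : ∀ P : OnePoint k, ordP P f < 0 → ¬ (p : ℤ) ∣ ordP P f
  eqn : y ^ (p ^ s) - y = aeval x f.num / aeval x f.denom
  genus : ((p : ℤ) ^ s - 1) * ((∑ᶠ P ∈ {P : OnePoint k | ordP P f < 0}, (1 - ordP P f)) - 2) = 2 * g

/-- `F` is the function field of a curve of genus `g` over `k` (of characteristic `p`) which is a Galois cover of the line of
prime degree `n ≤ N`, or has a tame indecomposable map of degree `n ≤ N`, `n` not divisible by `p`, to the line, or is a curve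
`y ^ q - y = f (x)`, `q > 1` a power of `p` -/
def IsGrow (k F : Type*) [Field k] [Field F] [Algebra k F] (p N g : ℕ) : Prop :=
  IsPrm k F p {n | n ≤ N} N g ∨ ∃ (s : ℕ) (x y : F) (f : RatFunc k), PresQ k F p s g x y f

/-- the supremum (in `ℕ ∪ {∞}`) of the numbers of automorphisms of these curves -/
noncomputable def muGrow.{u} (k : Type u) [Field k] (p : ℕ) (N : ℕ → ℕ) (g : ℕ) : ℕ∞ :=
  sSup {n : ℕ∞ | ∃ (F : Type u) (_ : Field F) (_ : Algebra k F),
    IsGrow k F p (N g) g ∧ n = ENat.card (F ≃ₐ[k] F)}

end Pool.Agent.Helper54.HW
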