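import Pool.Agent.Helper54.HW.Cls
import Pool.Agent.Helper22.HM.CycM
import Pool.Agent.Helper22.HL.ManyA
import Pool.Agent.Helper22.HL.ManyC
import Pool.Agent.Helper22.HL.ManyE
import Pool.Agent.Helper22.HL.GenA
import Pool.Agent.Helper22.HL.GenC
import Pool.Agent.Helper22.HL.Arith

/-!
MP_143e28_ag, project HW, `p = 2`: the lower bound `4 g + 4` (after `lowM` in `Helper22/HM/Fin.lean`).
-/

set_option autoImplicit false

namespace Pool.Agent.Helper54.HW

open Polynomial Pool.Agent.Helper54.HY Pool.Agent.Helper54.HZ Pool.Agent.Helper28.HN Pool.Agent.Helper22.HL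
  Pool.Agent.Helper22.HB Pool.Agent.Helper22.HE Pool.Agent.Helper22.HM

theorem Low2_ord {k : Type*} [Field k] {m : ℕ} (P : OnePoint k) :
    ordP P (algebraMap k[X] (RatFunc k) (X ^ m)) < 0 ↔ (P = OnePoint.infty ∧ 0 < m) := by
  induction P using OnePoint.rec with
  | infty =>
    rw [ordP_infty, RatFunc.num_algebraMap, RatFunc.denom_algebraMap, natDegree_one, natDegree_X_pow]
    simp
  | coe a =>
    rw [ordP_coe, RatFunc.num_algebraMap, RatFunc.denom_algebraMap]
    have h1 : rootMultiplicity a (1 : k[X]) = 0 := by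
      rw [← C_1, rootMultiplicity_C]
    rw [h1]
    simp

theorem Low2_inf {k : Type*} [Field k] {m : ℕ} :
    ordP (OnePoint.infty : OnePoint k) (algebraMap k[X] (RatFunc k) (X ^ m)) = -(m : ℤ) := by
  rw [ordP_infty, RatFunc.num_algebraMap, RatFunc.denom_algebraMap, natDegree_one, natDegree_X_pow]
  simp

theorem Low2_sum {k : Type*} [Field k] {m : ℕ} (hm : 0 < m) :
    ∑ᶠ P ∈ {P : OnePoint k | ordP P (algebraMap k[X] (RatFunc k) (X ^ m)) < 0},
      (1 - ordP P (algebraMap k[X] (RatFunc k) (X ^ m))) = (m : ℤ) + 1 := by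
  have h1 : {P : OnePoint k | ordP P (algebraMap k[X] (RatFunc k) (X ^ m)) < 0} =
      {(OnePoint.infty : OnePoint k)} := by
    ext P
    rw [Set.mem_ofPred_eq, Low2_ord, Set.mem_singleton_iff]
    exact ⟨fun h => h.1, fun h => ⟨h, hm⟩⟩
  rw [h1, finsum_mem_singleton, Low2_inf]
  ring

theorem lowerG2.{u} (k : Type u) [Field k] [IsAlgClosed k] [CharP k 2] (N : ℕ → ℕ) {g : ℕ}
    (hg : 2 ≤ g) (hN : 3 ≤ N g) : ((4 * g + 4 : ℕ) : ℕ∞) ≤ muGrow k 2 N g := by
  have hS : 2 ∈ {n : ℕ | n ≤ N g} := by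
    rw [Set.mem_ofPred_eq]
    omega
  have hS3 : 3 ∈ {n : ℕ | n ≤ N g} := hN
  rcases Nat.even_or_odd g with hev | hodd
  · have ha : Odd (g + 1) := hev.add_one
    obtain ⟨F, i1, i2, x, y, hx, hgen, he⟩ := exists_field k _ _ (irrA (k := k) ha)
    have h1 := manyA ha hx hgen he
    have h2 := presA ha hx hgen he
    rw [Nat.add_sub_cancel] at h2
    have e : 4 * (g + 1) = 4 * g + 4 := by ring
    rw [e] at h1
    exact h1.trans (le_sSup ⟨F, i1, i2, Or.inl (Or.inl (Or.inr ⟨hS, x, y, _, h2⟩)), rfl⟩)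
  · by_cases h3 : 3 ∣ g
    · obtain ⟨c, rfl⟩ := h3
      have hm : Odd (2 * c + 1) := odd_two_mul_add_one c
      obtain ⟨F, i1, i2, x, y, hx, hgen, he⟩ :=
        exists_field k _ _ (irrE (k := k) (s := 2) (m := 2 * c + 1) (by omega) (by omega))
      have h5 := manyE (s := 2) (by omega) hm hx hgen he
      have h6 : PresQ k F 2 2 (3 * c) x y (algebraMap k[X] (RatFunc k) (X ^ (2 * c + 1))) := by
        refine ⟨by omega, hx, hgen, ?_, ?_, ?_⟩
        · intro P hP hd
          obtain ⟨rfl, -⟩ := (Low2_ord P).1 hP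
          rw [Low2_inf] at hd
          push_cast at hd
          omega
        · rw [rat_poly] at he
          rw [RatFunc.num_algebraMap, RatFunc.denom_algebraMap]
          rw [← he]
          simp
        · rw [Low2_sum (by omega)]
          push_cast
          ring
      refine le_trans ?_ (h5.trans (le_sSup ⟨F, i1, i2, Or.inr ⟨2, x, y, _, h6⟩, rfl⟩))
      exact_mod_cast (by omega : 4 * (3 * c) + 4 ≤ 2 ^ 2 * ((2 ^ 2 - 1) * (2 * c + 1)))
    · have hc : Nat.Coprime g (2 * g / g + 1) := by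
        rw [Nat.mul_div_cancel _ (by omega)]
        exact ((Nat.Prime.coprime_iff_not_dvd Nat.prime_three).2 h3).symm
      have e3 : 2 * g / g + 1 = 3 := by rw [Nat.mul_div_cancel _ (by omega)]
      obtain ⟨h1, h2, h3', h4⟩ := deg_data hg hodd dvd_rfl
      obtain ⟨j, t, hj0, hjn, hj, ht⟩ := exists_j h1 h2 hc.symm
      rw [e3] at h1 h2 h3' h4 hj hjn ht
      obtain ⟨F, i1, i2, x, y, hx, hgen, he⟩ :=
        exists_field k _ _ (irrC (k := k) (n := 3) (a := g) (j := j) (by omega) hodd)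
      have h5 := manyC h1 hodd hj ht hx hgen he
      have h6 := presN_of_C Nat.prime_three (presC h1 h2 hodd hj0 hjn hj ht h3' hx hgen he)
      refine le_trans ?_ (h5.trans (le_sSup
        ⟨F, i1, i2, Or.inl (Or.inl (Or.inl ⟨3, hS3, x, y, _, h6⟩)), rfl⟩))
      exact_mod_cast (by omega : 4 * g + 4 ≤ 2 * (3 * g))

end Pool.Agent.Helper54.HW
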