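import Pool.Agent.Helper54.HZ.TArith

/-!
MP_143e28_ag, project HW (helper54; growing degrees): the arithmetic of the orbit lengths, total weight `W`, bound `2 W`.

COPY the proof of `orbit_arithD` (`Helper28/HN/Arith.lean`): `W` in the place of `2 g + 2 D` (`D = d - 1`), `2 * W < c` in the place of
`8 * g < c`; `hbig` gives `6 D < W` (`1 ≤ Q` from `hQ 0 0`), `h30` the case `c ≤ 60`.
-/

set_option autoImplicit false

namespace Pool.Agent.Helper54.HW

theorem orbit_arithW {ι : Type*} (R : Finset ι) (p c d Q W : ℕ) (hp : p.Prime)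
    (hp2 : p ≠ 2) (n q m w : ι → ℕ) (hn : ∀ i ∈ R, 0 < n i) (hc1 : ∀ i ∈ R, n i * (q i * m i) = c)
    (h2 : ∀ i ∈ R, 2 ≤ q i * m i) (hq : ∀ i ∈ R, ∃ j, q i = p ^ j) (hm : ∀ i ∈ R, m i ∣ q i - 1)
    (hqn : ∀ i ∈ R, q i ∣ n i - 1)
    (hb : ∑ i ∈ R, (n i : ℤ) * (2 - q i) = ((R.card : ℤ) - 2) * c + 2)
    (hd : 2 ≤ d) (hw : ∀ i ∈ R, w i + 1 ≤ d) (hN : ∑ i ∈ R, w i * n i = W)
    (hQ : ∀ e v : ℕ, v < d → p ^ e ∣ W - v → p ^ e ≤ Q)
    (hbig : d * (1 + 3 * Q + 2 * Q ^ 2) < W) (h30 : 30 ≤ W) : c ≤ 2 * W := by
  classical
  obtain ⟨D, rfl⟩ : ∃ D, d = D + 1 := ⟨d - 1, by omega⟩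
  have hD1 : 1 ≤ D := by omega
  have hwD : ∀ i ∈ R, w i ≤ D := fun i hi => by
    have := hw i hi
    omega
  have hND : ∑ i ∈ R, w i * n i = W := hN
  have hQ1 : 1 ≤ Q := by
    have := hQ 0 0 (by omega) (by simp)
    simpa using this
  have hDg : 6 * D < W := by
    have e1 : (D + 1) * 6 ≤ (D + 1) * (1 + 3 * Q + 2 * Q ^ 2) :=
      Nat.mul_le_mul_left _ (by nlinarith)
    omega
  by_contra hcon
  push Not at hcon
  have hp3 : 3 ≤ p := by
    have := hp.two_le
    omega
  have hq1 : ∀ i ∈ R, q i ≠ 1 → 3 ≤ q i ∧ p ∣ q i := by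
    intro i hi h
    obtain ⟨j, hj⟩ := hq i hi
    have hj0 : j ≠ 0 := by
      rintro rfl
      exact h (by simpa using hj)
    have hd : p ∣ q i := by
      rw [hj]
      exact dvd_pow_self p hj0
    have hpos : 0 < q i := by
      rw [hj]
      exact pow_pos hp.pos _
    exact ⟨le_trans hp3 (Nat.le_of_dvd hpos hd), hd⟩
  have hhalf : ∀ i ∈ R, q i = 1 → 2 * n i ≤ c := by
    intro i hi h
    have h1 := hc1 i hi
    have h3 := h2 i hi
    calc 2 * n i = n i * 2 := by ring
      _ ≤ n i * (q i * m i) := Nat.mul_le_mul_left _ h3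
      _ = c := h1
  have hwn : ∀ i ∈ R, w i * n i ≤ W := by
    intro i hi
    rw [← hND]
    exact Finset.single_le_sum (f := fun i => w i * n i) (fun j _ => Nat.zero_le _) hi
  have hcpos : 0 < c := by omega
  have hcard : (R.filter (fun i => q i = 1)).card + (R.filter (fun i => ¬ q i = 1)).card = R.card :=
    Finset.card_filter_add_card_filter_not _
  have hkey : 2 * (R.filter (fun i => ¬ q i = 1)).card + (R.filter (fun i => q i = 1)).card ≤ 3 := by
    have h1 : ∑ i ∈ R, 2 * ((n i : ℤ) * (2 - q i)) ≤ ∑ i ∈ R, (if q i = 1 then (c : ℤ) else 0) := by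
      refine Finset.sum_le_sum fun i hi => ?_
      split_ifs with h
      · have := hhalf i hi h
        rw [h]
        push_cast
        have h4 : (2 : ℤ) * n i ≤ c := by exact_mod_cast this
        linarith
      · have h3 : (3 : ℤ) ≤ q i := by exact_mod_cast (hq1 i hi h).1
        have h4 : (0 : ℤ) ≤ n i := by positivity
        nlinarith
    rw [← Finset.mul_sum, hb, ← Finset.sum_filter, Finset.sum_const, nsmul_eq_mul, ← hcard] at h1
    push_cast at h1
    by_contra h5
    push Not at h5
    have h6 : (4 : ℤ) ≤ 2 * ((R.filter (fun i => ¬ q i = 1)).card : ℤ)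
        + ((R.filter (fun i => q i = 1)).card : ℤ) := by exact_mod_cast h5
    have h7 : (0 : ℤ) < c := by exact_mod_cast hcpos
    nlinarith
  rcases Nat.eq_zero_or_pos (R.filter (fun i => ¬ q i = 1)).card with hA0 | hApos
  · -- no wild orbit
    have hall : ∀ i ∈ R, q i = 1 := by
      intro i hi
      by_contra h
      have : i ∈ R.filter (fun i => ¬ q i = 1) := Finset.mem_filter.2 ⟨hi, h⟩
      rw [Finset.card_eq_zero.1 hA0] at this
      simp at this
    have hsum : ∑ i ∈ R, (n i : ℤ) = ((R.card : ℤ) - 2) * c + 2 := by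
      rw [← hb]
      refine Finset.sum_congr rfl fun i hi => ?_
      rw [hall i hi]
      push_cast
      ring
    have hNn : 3 ≤ ∑ i ∈ R, n i := by
      have h8 : ∑ i ∈ R, w i * n i ≤ ∑ i ∈ R, D * n i :=
        Finset.sum_le_sum fun i hi => Nat.mul_le_mul_right _ (hwD i hi)
      rw [hND, ← Finset.mul_sum] at h8
      by_contra h
      have h9 : D * ∑ i ∈ R, n i ≤ D * 2 := Nat.mul_le_mul_left _ (by omega)
      omega
    have hNle : (3 : ℤ) ≤ ((R.card : ℤ) - 2) * c + 2 := by
      rw [← hsum]
      exact_mod_cast hNn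
    have hRle : R.card ≤ 3 := by omega
    have hR3 : R.card = 3 := by
      by_contra h
      have h8 : (R.card : ℤ) - 2 ≤ 0 := by
        have : R.card ≤ 2 := by omega
        have h9 : (R.card : ℤ) ≤ 2 := by exact_mod_cast this
        linarith
      have h10 : (0 : ℤ) ≤ c := by positivity
      have h11 : ((R.card : ℤ) - 2) * c ≤ 0 := mul_nonpos_of_nonpos_of_nonneg h8 h10
      linarith
    have hsumN : ∑ i ∈ R, n i = c + 2 := by
      rw [hR3] at hsum
      have : ((∑ i ∈ R, n i : ℕ) : ℤ) = ((c + 2 : ℕ) : ℤ) := by
        push_cast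
        rw [hsum]
        push_cast
        ring
      exact_mod_cast this
    have hmn : ∀ i ∈ R, n i * m i = c := by
      intro i hi
      have := hc1 i hi
      rwa [hall i hi, one_mul] at this
    have hm2 : ∀ i ∈ R, 2 ≤ m i := by
      intro i hi
      have := h2 i hi
      rwa [hall i hi, one_mul] at this
    have hTm : ∀ i ∈ R, w i ≠ 0 → 3 ≤ m i := by
      intro i hi hwi
      by_contra h
      have h4 : m i = 2 := by
        have := hm2 i hi
        omega
      have h5 := hmn i hi
      rw [h4] at h5
      have h6 : n i ≤ W := by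
        refine le_trans ?_ (hwn i hi)
        calc n i = 1 * n i := (one_mul _).symm
          _ ≤ w i * n i := Nat.mul_le_mul_right _ (Nat.one_le_iff_ne_zero.2 hwi)
      omega
    have hNH : 3 ≤ ∑ i ∈ R.filter (fun i => ¬ m i = 2), n i := by
      have h8 : ∑ i ∈ R.filter (fun i => m i = 2), w i * n i +
          ∑ i ∈ R.filter (fun i => ¬ m i = 2), w i * n i = W := by
        rw [Finset.sum_filter_add_sum_filter_not, hND]
      have h9 : ∑ i ∈ R.filter (fun i => m i = 2), w i * n i = 0 := by
        refine Finset.sum_eq_zero fun i hi => ?_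
        rw [Finset.mem_filter] at hi
        have h10 : w i = 0 := by
          by_contra h
          have := hTm i hi.1 h
          omega
        rw [h10, zero_mul]
      have h11 : ∑ i ∈ R.filter (fun i => ¬ m i = 2), w i * n i ≤
          ∑ i ∈ R.filter (fun i => ¬ m i = 2), D * n i :=
        Finset.sum_le_sum fun i hi => Nat.mul_le_mul_right _ (hwD i (Finset.mem_filter.1 hi).1)
      rw [← Finset.mul_sum] at h11
      by_contra h
      have h12 : D * ∑ i ∈ R.filter (fun i => ¬ m i = 2), n i ≤ D * 2 :=
        Nat.mul_le_mul_left _ (by omega)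
      omega
    have hsp : ∑ i ∈ R.filter (fun i => m i = 2), n i +
        ∑ i ∈ R.filter (fun i => ¬ m i = 2), n i = c + 2 := by
      rw [Finset.sum_filter_add_sum_filter_not, hsumN]
    have hcardH : (R.filter (fun i => m i = 2)).card + (R.filter (fun i => ¬ m i = 2)).card =
        3 := by
      rw [← hR3]
      exact Finset.card_filter_add_card_filter_not _
    have hH2 : 2 * ∑ i ∈ R.filter (fun i => m i = 2), n i =
        (R.filter (fun i => m i = 2)).card * c := by
      rw [Finset.mul_sum, ← smul_eq_mul, ← Finset.sum_const]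
      refine Finset.sum_congr rfl fun i hi => ?_
      rw [Finset.mem_filter] at hi
      have := hmn i hi.1
      rw [hi.2] at this
      omega
    have hH3 : 3 * ∑ i ∈ R.filter (fun i => ¬ m i = 2), n i ≤
        (R.filter (fun i => ¬ m i = 2)).card * c := by
      rw [Finset.mul_sum, ← smul_eq_mul, ← Finset.sum_const]
      refine Finset.sum_le_sum fun i hi => ?_
      rw [Finset.mem_filter] at hi
      have h4 := hmn i hi.1
      have h5 := hm2 i hi.1
      have h6 : 3 ≤ m i := by
        have := hi.2
        omega
      calc 3 * n i = n i * 3 := by ring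
        _ ≤ n i * m i := Nat.mul_le_mul_left _ h6
        _ = c := h4
    have h4 : (R.filter (fun i => m i = 2)).card = 0 ∨ (R.filter (fun i => m i = 2)).card = 1 ∨
        2 ≤ (R.filter (fun i => m i = 2)).card := by omega
    rcases h4 with h4 | h4 | h4
    · have h5 : (R.filter (fun i => ¬ m i = 2)).card = 3 := by omega
      rw [h4] at hH2
      rw [h5] at hH3
      omega
    · have h5 : (R.filter (fun i => ¬ m i = 2)).card = 2 := by omega
      rw [h4] at hH2
      obtain ⟨y, z, hyz, hR'⟩ := Finset.card_eq_two.1 h5
      have hy : y ∈ R ∧ ¬ m y = 2 := by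
        have : y ∈ R.filter (fun i => ¬ m i = 2) := by rw [hR']; simp
        exact Finset.mem_filter.1 this
      have hz : z ∈ R ∧ ¬ m z = 2 := by
        have : z ∈ R.filter (fun i => ¬ m i = 2) := by rw [hR']; simp
        exact Finset.mem_filter.1 this
      rw [hR', Finset.sum_pair hyz] at hsp
      have e1 := hmn y hy.1
      have e2 := hmn z hz.1
      have f1 : 3 ≤ m y := by
        have := hm2 y hy.1
        have := hy.2
        omega
      have f2 : 3 ≤ m z := by
        have := hm2 z hz.1
        have := hz.2
        omega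
      have hc60 : c ≤ 60 := by
        have key : ∀ u v nu nv : ℕ, 3 ≤ u → 3 ≤ v → nu * u = c → nv * v = c →
            2 * (nu + nv) = c + 4 → u ≤ v → c ≤ 60 := by
          intro u v nu nv hu hv g1 g2 g3 huv
          by_contra hbig'
          push Not at hbig'
          have hu3 : u < 4 := by
            by_contra h8
            push Not at h8
            have g4 : nu * 4 ≤ c := by
              rw [← g1]
              exact Nat.mul_le_mul_left _ h8
            have g5 : nv * 4 ≤ c := by
              rw [← g2]
              exact Nat.mul_le_mul_left _ (le_trans h8 huv)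
            omega
          have hu3' : u = 3 := by omega
          rw [hu3'] at g1
          have hv6 : v < 6 := by
            by_contra h8
            push Not at h8
            have g5 : nv * 6 ≤ c := by
              rw [← g2]
              exact Nat.mul_le_mul_left _ h8
            omega
          interval_cases v <;> omega
        rcases le_total (m y) (m z) with h8 | h8
        · exact key _ _ _ _ f1 f2 e1 e2 (by omega) h8
        · exact key _ _ _ _ f2 f1 e2 e1 (by omega) h8
      omega
    · have h5 : (R.filter (fun i => ¬ m i = 2)).card ≤ 1 := by omega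
      have h6 : 2 * c ≤ 2 * ∑ i ∈ R.filter (fun i => m i = 2), n i := by
        rw [hH2]
        exact Nat.mul_le_mul_right _ h4
      omega
  · -- one wild orbit
    have hA1 : (R.filter (fun i => ¬ q i = 1)).card = 1 := by omega
    have hB1 : (R.filter (fun i => q i = 1)).card ≤ 1 := by omega
    obtain ⟨a, ha⟩ := Finset.card_eq_one.1 hA1
    have ham : a ∈ R ∧ ¬ q a = 1 := by
      have : a ∈ R.filter (fun i => ¬ q i = 1) := by rw [ha]; simp
      exact Finset.mem_filter.1 this
    obtain ⟨haR, hqa⟩ := ham
    obtain ⟨hq3, hpq⟩ := hq1 a haR hqa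
    obtain ⟨t, ht⟩ := hqn a haR
    have hna : n a = 1 + q a * t := by
      have := hn a haR
      omega
    have honly : ∀ i ∈ R, i ≠ a → q i = 1 := by
      intro i hi hia
      by_contra h
      have : i ∈ R.filter (fun i => ¬ q i = 1) := Finset.mem_filter.2 ⟨hi, h⟩
      rw [ha, Finset.mem_singleton] at this
      exact hia this
    have hR2 : R.card ≤ 2 := by omega
    have hmpos : 0 < m a := by
      rcases Nat.eq_zero_or_pos (m a) with h | h
      · have := h2 a haR
        rw [h] at this
        omega
      · exact h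
    rcases Nat.lt_or_ge R.card 2 with hRlt | hRge
    · -- only the wild orbit
      have hR1 : R.card ≤ 1 := by omega
      have hRa : R = {a} := by
        apply Finset.Subset.antisymm
        · intro i hi
          rw [Finset.mem_singleton]
          exact Finset.card_le_one.1 hR1 i hi a haR
        · intro i hi
          rw [Finset.mem_singleton] at hi
          rw [hi]
          exact haR
      have hwa := hwD a haR
      rw [hRa, Finset.sum_singleton] at hND
      have hga : 3 ≤ n a := by
        have h8 : w a * n a ≤ D * n a := Nat.mul_le_mul_right _ hwa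
        by_contra h
        have h12 : D * n a ≤ D * 2 := Nat.mul_le_mul_left _ (by omega)
        omega
      rw [hRa, Finset.sum_singleton, Finset.card_singleton, ← hc1 a haR] at hb
      push_cast at hb
      have e1 : (1 : ℤ) ≤ m a := by exact_mod_cast hmpos
      have e2 : (3 : ℤ) ≤ n a := by exact_mod_cast hga
      have e3 : (3 : ℤ) ≤ q a := by exact_mod_cast hq3
      have e4 : (n a : ℤ) * (q a * (m a - 1) + 2) = 2 := by linarith
      have e5 : (0 : ℤ) ≤ q a * (m a - 1) := mul_nonneg (by linarith) (by linarith)
      nlinarith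
    · have hRc2 : R.card = 2 := le_antisymm hR2 hRge
      have hers : (R.erase a).card = 1 := by rw [Finset.card_erase_of_mem haR, hRc2]
      obtain ⟨s, hs⟩ := Finset.card_eq_one.1 hers
      have hsm : s ∈ R ∧ s ≠ a := by
        have : s ∈ R.erase a := by rw [hs]; simp
        exact ⟨Finset.mem_of_mem_erase this, Finset.ne_of_mem_erase this⟩
      obtain ⟨hsR, hsa⟩ := hsm
      have hqs : q s = 1 := honly s hsR hsa
      have hRe : R = insert a {s} := by rw [← hs, Finset.insert_erase haR]
      have hans : a ∉ ({s} : Finset ι) := by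
        rw [Finset.mem_singleton]
        exact fun h => hsa h.symm
      have hb2 : (n a : ℤ) * (2 - q a) + n s = 2 := by
        have := hb
        rw [hRc2] at this
        rw [hRe, Finset.sum_insert hans, Finset.sum_singleton, hqs] at this
        push_cast at this
        linarith
      have hN2 : w a * n a + w s * n s = W := by
        rw [← hND, hRe, Finset.sum_insert hans, Finset.sum_singleton]
      obtain ⟨r, hr⟩ : ∃ r, q a = r + 2 := ⟨q a - 2, by omega⟩
      have hns : n s = q a * (1 + t * r) := by
        have h15 : (n s : ℤ) = ((q a * (1 + t * r) : ℕ) : ℤ) := by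
          have h16 : (n s : ℤ) = 2 + (n a : ℤ) * (q a - 2) := by linarith
          rw [h16, hna, hr]
          push_cast
          ring
        exact_mod_cast h15
      have hu : (1 + t * r) ∣ m a * n a := by
        have h17 : q a * (1 + t * r) ∣ q a * (m a * n a) := by
          have h18 : q a * (m a * n a) = c := by rw [← hc1 a haR]; ring
          rw [h18, ← hc1 s hsR, ← hns]
          exact Dvd.intro _ rfl
        exact Nat.dvd_of_mul_dvd_mul_left (by omega) h17
      have hu2 : (1 + t * r) ∣ 2 * m a := by
        have h19 : (1 + t * r) ∣ (m a * n a) * r := Dvd.dvd.mul_right hu r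
        have h20 : (m a * n a) * r + 2 * m a = (1 + t * r) * (m a * q a) := by
          rw [hna, hr]
          ring
        have h21 : (1 + t * r) ∣ (m a * n a) * r + 2 * m a := by
          rw [h20]
          exact Dvd.intro _ rfl
        exact (Nat.dvd_add_right h19).1 h21
      have hmle : m a ≤ q a - 1 := Nat.le_of_dvd (by omega) (hm a haR)
      have hule : 1 + t * r ≤ 2 * m a := Nat.le_of_dvd (by omega) hu2
      -- the size of the wild part
      obtain ⟨j, hj⟩ := hq a haR
      have hwaD := hwD a haR
      have hqQ : q a ≤ Q := by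
        rw [hj]
        apply hQ j (w a) (by omega)
        rw [← hj]
        refine ⟨w a * t + w s * (1 + t * r), ?_⟩
        have h24 := hN2
        rw [hna, hns] at h24
        have h25 : w a + q a * (w a * t + w s * (1 + t * r)) = W := by
          rw [← h24]
          ring
        omega
      have hr1 : 1 ≤ r := by omega
      have ht3 : t ≤ 3 := by
        by_contra h
        push Not at h
        have h24 : 4 * r ≤ t * r := Nat.mul_le_mul_right _ (by omega)
        omega
      have h25 : t * r ≤ 2 * r + 1 := by omega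
      have hws := hwD s hsR
      have h27 : n a ≤ 1 + 3 * Q := by
        rw [hna]
        have e1 : q a * t ≤ Q * 3 := Nat.mul_le_mul hqQ ht3
        omega
      have h28 : n s ≤ 2 * Q ^ 2 := by
        rw [hns]
        have e1 : q a * (1 + t * r) ≤ Q * (2 * Q) := Nat.mul_le_mul hqQ (by omega)
        calc q a * (1 + t * r) ≤ Q * (2 * Q) := e1
          _ = 2 * Q ^ 2 := by ring
      have h29 : w a * n a ≤ D * (1 + 3 * Q) := Nat.mul_le_mul hwaD h27
      have h30' : w s * n s ≤ D * (2 * Q ^ 2) := Nat.mul_le_mul hws h28
      have h31 : D * (1 + 3 * Q + 2 * Q ^ 2) ≤ (D + 1) * (1 + 3 * Q + 2 * Q ^ 2) :=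
        Nat.mul_le_mul_right _ (Nat.le_succ D)
      have h32 : D * (1 + 3 * Q) + D * (2 * Q ^ 2) = D * (1 + 3 * Q + 2 * Q ^ 2) := by ring
      omega

end Pool.Agent.Helper54.HW
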