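import Pool.Agent.Helper54.HW.Bound
import Pool.Agent.Helper54.HZ.Final

/-!
MP_143e28_ag, project HW: Galois covers of prime degree `n ≤ N`.

`n = 2`: as in `upperN` (`HZ/Final.lean`).  `3 ≤ n`: `r = Nat.card (BrN n f)`, `(n - 1) (r - 2) = 2 g`, `15 n ^ 2 ≤ g` gives `2 n < r`
(`auto_memN`) and `30 ≤ r`; `auto_groupN`, `mob_finite`, and `boundW` with `w` = the indicator of `BrN n f`, `d = 2`, `W = r`:
`p ^ e ∣ r - v` (`v = 0, 1`) gives `p ^ e ∣ (n - 1) (r - v) = 2 g + 2 n - 2 - (n - 1) v`.  So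
`#Aut ≤ n * 2 r = 2 (n - 1) (r - 2) + 2 (r - 2) + 4 n ≤ 4 g + 2 g + 4 n ≤ 8 g`.
-/

set_option autoImplicit false

namespace Pool.Agent.Helper54.HW

open Polynomial Pool.Agent.Helper28.HA Pool.Agent.Helper54.HZ

private theorem Cyc_fac {g n r v : ℕ} (hn : 3 ≤ n) (hr2 : 2 ≤ r) (hv : v < 2)
    (hgen : (n - 1) * (r - 2) = 2 * g) :
    (n - 1) * v < n ∧ 2 * g + 2 * n - 2 - (n - 1) * v = (n - 1) * (r - v) := by
  obtain ⟨m, rfl⟩ : ∃ m, n = m + 1 := ⟨n - 1, by omega⟩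
  obtain ⟨t, rfl⟩ : ∃ t, r = t + 2 := ⟨r - 2, by omega⟩
  rw [Nat.add_sub_cancel] at hgen ⊢
  rw [Nat.add_sub_cancel] at hgen
  rcases (show v = 0 ∨ v = 1 by omega) with rfl | rfl
  · refine ⟨by omega, ?_⟩
    have e2 : m * (t + 2) = m * t + 2 * m := by ring
    rw [Nat.mul_zero, Nat.sub_zero, Nat.sub_zero, e2, hgen]
    omega
  · refine ⟨by omega, ?_⟩
    have e1 : t + 2 - 1 = t + 1 := by omega
    have e2 : m * (t + 1) = m * t + m := by ring
    rw [e1, e2, hgen, Nat.mul_one]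
    omega

private theorem Cyc_num {g n r A : ℕ} (hn : 3 ≤ n) (hng : 15 * n ^ 2 ≤ g)
    (hgen : (n - 1) * (r - 2) = 2 * g) (hbig : n * A < g) :
    2 * n < r ∧ 30 ≤ r ∧ 2 * A < r ∧ n * (2 * r) ≤ 8 * g := by
  obtain ⟨m, rfl⟩ : ∃ m, n = m + 1 := ⟨n - 1, by omega⟩
  rw [Nat.add_sub_cancel] at hgen
  obtain ⟨t, ht⟩ : ∃ t, r - 2 = t := ⟨_, rfl⟩
  rw [ht] at hgen
  have h1 : 30 * (m + 1) < t := by
    by_contra h
    push Not at h
    have e1 : m * t ≤ m * (30 * (m + 1)) := Nat.mul_le_mul_left _ h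
    nlinarith
  have h2 : 2 * A < t := by
    by_contra h
    push Not at h
    have e1 : m * t ≤ m * (2 * A) := Nat.mul_le_mul_left _ h
    nlinarith
  have h3 : 2 * t ≤ m * t := Nat.mul_le_mul_right _ (by omega)
  have hr : r = t + 2 := by omega
  refine ⟨by omega, by omega, by omega, ?_⟩
  rw [hr]
  have e2 : (m + 1) * (2 * (t + 2)) = 2 * (m * t) + 2 * t + 4 * (m + 1) := by ring
  rw [e2, hgen]
  rw [hgen] at h3
  have e3 : m + 1 ≤ (m + 1) ^ 2 := Nat.le_self_pow two_ne_zero _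
  omega

theorem cyc_odd {k F : Type*} [Field k] [IsAlgClosed k] (p : ℕ) [Fact p.Prime] (hp : p ≠ 2)
    [CharP k p] [Field F] [Algebra k F] {g n Q : ℕ} (hn : 3 ≤ n)
    (hQ : ∀ e v : ℕ, v < n → p ^ e ∣ 2 * g + 2 * n - 2 - v → p ^ e ≤ Q)
    (hbig : n * (1 + 3 * Q + 2 * Q ^ 2) < g) (hng : 15 * n ^ 2 ≤ g) {x y : F} {f : k[X]}
    (h : PresN k F n g x y f) :
    Finite (F ≃ₐ[k] F) ∧ Nat.card (F ≃ₐ[k] F) ≤ 8 * g := by
  classical
  obtain ⟨r, hr⟩ : ∃ r, r = Nat.card (BrN n f) := ⟨_, rfl⟩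
  have hgen := h.genus
  rw [← hr] at hgen
  obtain ⟨h2n, h30, hA, h8⟩ := Cyc_num hn hng hgen hbig
  have hg : 0 < g := by omega
  have hmem : ∀ s : F ≃ₐ[k] F, s x ∈ IntermediateField.adjoin k {x} :=
    fun s => auto_memN hg h (by rw [← hr]; exact h2n) s
  obtain ⟨G, hG, hGB, hfin⟩ := auto_groupN hg h hmem
  obtain ⟨hG1, -⟩ := mob_finite G hG (BrN n f) (finite_BrN n h.ne0) (by rw [← hr]; omega) hGB
  obtain ⟨ha, hb⟩ := hfin hG1
  have hiff : ∀ s ∈ G, ∀ P, s P ∈ BrN n f ↔ P ∈ BrN n f := by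
    intro s hs P
    refine ⟨fun hP => ?_, hGB s hs P⟩
    have h1 := hGB s⁻¹ (G.inv_mem hs) _ hP
    simpa using h1
  have hc := boundW p hp G hG (Set.indicator (BrN n f) 1)
    (by
      intro s hs P
      by_cases hP : P ∈ BrN n f
      · rw [Set.indicator_of_mem hP, Set.indicator_of_mem ((hiff s hs P).2 hP)]
        rfl
      · rw [Set.indicator_of_notMem hP, Set.indicator_of_notMem (fun h' => hP ((hiff s hs P).1 h'))])
    2 Q r le_rfl
    (by
      intro P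
      by_cases hP : P ∈ BrN n f
      · rw [Set.indicator_of_mem hP]
        rfl
      · rw [Set.indicator_of_notMem hP]
        norm_num)
    (by
      have hB := finite_BrN n h.ne0
      rw [hr, Nat.card_coe_set_eq, finsum_eq_sum_of_support_subset (s := hB.toFinset)]
      · rw [Finset.sum_congr rfl (fun P hP => Set.indicator_of_mem
          ((Set.Finite.mem_toFinset hB).1 hP) (1 : OnePoint k → ℕ))]
        rw [Set.ncard_eq_toFinset_card _ hB, Finset.card_eq_sum_ones]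
        rfl
      · rw [Set.Finite.coe_toFinset]
        exact Set.support_indicator_subset)
    (by
      intro e v hv hd
      obtain ⟨e1, e2⟩ := Cyc_fac hn (by omega) hv hgen
      refine hQ e ((n - 1) * v) e1 ?_
      rw [e2]
      exact hd.trans (dvd_mul_left _ _))
    hA h30
  exact ⟨ha, hb.trans ((Nat.mul_le_mul_left n hc).trans h8)⟩

theorem cyc_upper.{u} {k F : Type u} [Field k] [IsAlgClosed k] (p : ℕ) [Fact p.Prime] (hp : p ≠ 2)
    [CharP k p] [Field F] [Algebra k F] {g n Q : ℕ} (h1 : p ∣ g + 1) (h2 : ¬ p ^ 2 ∣ g + 1)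
    (h3 : 3 * p ^ 2 < g)
    (hQ : ∀ e v : ℕ, v < n → p ^ e ∣ 2 * g + 2 * n - 2 - v → p ^ e ≤ Q)
    (hbig : n * (1 + 3 * Q + 2 * Q ^ 2) < g) (hng : 15 * n ^ 2 ≤ g) {x y : F} {f : k[X]}
    (h : PresN k F n g x y f) :
    Finite (F ≃ₐ[k] F) ∧ Nat.card (F ≃ₐ[k] F) ≤ 8 * g := by
  rcases Nat.lt_or_ge n 3 with hn | hn
  · have hn2 : n = 2 := by
      have := h.prime.two_le
      omega
    subst hn2
    have h27 : 27 ≤ 3 * p ^ 2 := by
      have hp2 : 3 ≤ p := by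
        have := (Fact.out : p.Prime).two_le
        omega
      nlinarith
    have hPr := pres_of (by omega) h
    have h20 := Final_two_ne p hp k
    exact ⟨(auto_finite h20 (by omega) ⟨x, y, f, hPr⟩).1,
      upper p hp h1 h2 (by omega) ⟨x, y, f, hPr⟩⟩
  · exact cyc_odd p hp hn hQ hbig hng h

end Pool.Agent.Helper54.HW
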