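import Mathlib

/-!
MP_143e28_ag, project HW: the special genera `g = p ^ E + p - 1` (pure arithmetic).

`sp_pow`: `2 g + 2 n - 2 - v = 2 p ^ E + t`, `t = 2 p + 2 n - 4 - v`, `0 < t < p ^ E`: if `e ≤ E` then `p ^ e ∣ t`, `p ^ e ≤ t ≤ 2 p + 2 N`;
if `E < e` then `p ^ E ∣ t`, no.  `sp_as`: `2 g ≡ 2` modulo `p - 1`.
-/

set_option autoImplicit false

namespace Pool.Agent.Helper54.HW

theorem sp_dvd (p E : ℕ) (hp : p.Prime) (hE : 2 ≤ E) :
    p ∣ (p ^ E + p - 1) + 1 ∧ ¬ p ^ 2 ∣ (p ^ E + p - 1) + 1 := by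
  have hpos := hp.pos
  have h1 : (p ^ E + p - 1) + 1 = p ^ E + p := by omega
  rw [h1]
  refine ⟨dvd_add (dvd_pow_self p (by omega)) dvd_rfl, ?_⟩
  intro h
  have h2 : p ^ 2 ∣ p := (Nat.dvd_add_right (pow_dvd_pow p hE)).1 h
  have h3 := Nat.le_of_dvd hpos h2
  have h4 := hp.two_le
  nlinarith

theorem sp_pow (p E N : ℕ) (hp : p.Prime) (hN : 2 * p + 2 * N < p ^ E) :
    ∀ n : ℕ, 2 ≤ n → n ≤ N → ∀ e v : ℕ, v < n → p ^ e ∣ 2 * (p ^ E + p - 1) + 2 * n - 2 - v →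
      p ^ e ≤ 2 * p + 2 * N := by
  intro n hn2 hnN e v hv hd
  have hp2 := hp.two_le
  have h1 : 2 * (p ^ E + p - 1) + 2 * n - 2 - v = 2 * p ^ E + (2 * p + 2 * n - 4 - v) := by omega
  rw [h1] at hd
  have ht : 0 < 2 * p + 2 * n - 4 - v := by omega
  rcases Nat.lt_or_ge E e with he | he
  · exfalso
    have h2 : p ^ E ∣ 2 * p ^ E + (2 * p + 2 * n - 4 - v) := (pow_dvd_pow p he.le).trans hd
    have h3 := (Nat.dvd_add_right (Dvd.intro_left 2 rfl)).1 h2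
    have h4 := Nat.le_of_dvd ht h3
    omega
  · have h3 := (Nat.dvd_add_right ((pow_dvd_pow p he).trans (Dvd.intro_left 2 rfl))).1 hd
    have h4 := Nat.le_of_dvd ht h3
    omega

theorem sp_as (p E : ℕ) (hp : p.Prime) (hp5 : 5 ≤ p) : ¬ p - 1 ∣ 2 * (p ^ E + p - 1) := by
  intro h
  have h1 : p - 1 ∣ p ^ E - 1 := by
    have := Nat.sub_dvd_pow_sub_pow p 1 E
    simpa using this
  have hpos : 0 < p ^ E := pow_pos hp.pos E
  have h2 : 2 * (p ^ E + p - 1) = 2 * (p ^ E - 1) + (2 * (p - 1) + 2) := by omega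
  rw [h2] at h
  have h3 := (Nat.dvd_add_right (h1.mul_left 2)).1 h
  have h4 := (Nat.dvd_add_right (Dvd.intro_left 2 rfl)).1 h3
  have h5 := Nat.le_of_dvd (by norm_num) h4
  omega

/-- the growth condition at the special genera -/
theorem sp_grow (p : ℕ) (hp : p.Prime) (hp2 : p ≠ 2) (N : ℕ → ℕ) (hN2 : ∀ g, 2 ≤ g → 2 ≤ N g)
    (hN : ∀ᶠ g in Filter.atTop, 9 * N g ^ 3 ≤ g) :
    ∃ E₀ : ℕ, 2 ≤ E₀ ∧ ∀ E : ℕ, E₀ ≤ E → 3 * p ^ 2 < p ^ E + p - 1 ∧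
      2 * p + 2 * N (p ^ E + p - 1) < p ^ E ∧
      (∀ n : ℕ, n ≤ N (p ^ E + p - 1) →
        n * (1 + 3 * (2 * p + 2 * N (p ^ E + p - 1)) + 2 * (2 * p + 2 * N (p ^ E + p - 1)) ^ 2)
          < p ^ E + p - 1 ∧ 15 * n ^ 2 ≤ p ^ E + p - 1) := by
  have hp3 : 3 ≤ p := by
    have := hp.two_le
    omega
  obtain ⟨g0, hg0⟩ := Filter.eventually_atTop.1 hN
  refine ⟨max (20 * p * (1 + 126 * p + 3528 * p ^ 2)) g0, ?_, fun E hE => ?_⟩
  · refine le_trans ?_ (le_max_left _ _)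
    nlinarith [Nat.zero_le (p ^ 2), Nat.zero_le (p * (126 * p + 3528 * p ^ 2))]
  have hK : 20 * p * (1 + 126 * p + 3528 * p ^ 2) ≤ E := (le_max_left _ _).trans hE
  have hEg : g0 ≤ E := (le_max_right _ _).trans hE
  have hEp : E < p ^ E := Nat.lt_pow_self (by omega)
  have hg := hg0 (p ^ E + p - 1) (by omega)
  have hM2 := hN2 (p ^ E + p - 1) (by omega)
  generalize hM : N (p ^ E + p - 1) = M at hg hM2 ⊢
  have hK2 : 20 * p * (1 + 126 * p + 3528 * p ^ 2) =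
      20 * p + 2520 * p ^ 2 + 70560 * p ^ 3 := by ring
  have hp33 : p ^ 2 ≤ p ^ 3 := Nat.pow_le_pow_right (by omega) (by norm_num)
  have hM3 : M ^ 3 = M * M ^ 2 := by ring
  have hM22 : 2 * M ≤ M ^ 2 := by nlinarith
  have hM32 : 2 * M ^ 2 ≤ M ^ 3 := by
    rw [hM3]
    exact Nat.mul_le_mul_right _ hM2
  refine ⟨by omega, ?_, fun n hn => ⟨?_, ?_⟩⟩
  · omega
  · have e0 : n * (1 + 3 * (2 * p + 2 * M) + 2 * (2 * p + 2 * M) ^ 2) ≤
        M * (1 + 3 * (2 * p + 2 * M) + 2 * (2 * p + 2 * M) ^ 2) := Nat.mul_le_mul_right _ hn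
    refine lt_of_le_of_lt e0 ?_
    rcases Nat.lt_or_ge M (20 * p) with hs | hs
    · have e1 : 2 * p + 2 * M ≤ 42 * p := by omega
      have e2 : (2 * p + 2 * M) ^ 2 ≤ (42 * p) ^ 2 := Nat.pow_le_pow_left e1 2
      have e3 : (42 * p) ^ 2 = 1764 * p ^ 2 := by ring
      have e4 : M * (1 + 3 * (2 * p + 2 * M) + 2 * (2 * p + 2 * M) ^ 2) ≤
          (20 * p) * (1 + 126 * p + 3528 * p ^ 2) := Nat.mul_le_mul hs.le (by omega)
      omega
    · have e1 : M * (1 + 3 * (2 * p + 2 * M) + 2 * (2 * p + 2 * M) ^ 2) =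
          8 * M ^ 3 + M * ((6 + 16 * p) * M + (1 + 6 * p + 8 * p ^ 2)) := by ring
      have e2 : (6 + 16 * p) * M + (1 + 6 * p + 8 * p ^ 2) < M ^ 2 := by
        have f1 : 20 * p * M ≤ M ^ 2 := by
          have : M ^ 2 = M * M := by ring
          rw [this]
          exact Nat.mul_le_mul_right _ hs
        have f2 : 2 * p * (20 * p) ≤ 2 * p * M := Nat.mul_le_mul_left _ hs
        have f3 : 6 * M ≤ 2 * p * M := Nat.mul_le_mul_right _ (by omega)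
        nlinarith
      have e3 : M * ((6 + 16 * p) * M + (1 + 6 * p + 8 * p ^ 2)) < M ^ 3 := by
        rw [hM3]
        exact Nat.mul_lt_mul_of_pos_left e2 (by omega)
      omega
  · have e1 : n ^ 2 ≤ M ^ 2 := Nat.pow_le_pow_left hn 2
    omega

end Pool.Agent.Helper54.HW
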