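import Pool.Agent.Helper54.HW.Upper
import Pool.Agent.Helper54.HW.Spec
import Pool.Agent.Helper28.HN.Cls
import Pool.Agent.Helper54.HZ.Final
import Pool.Agent.Helper54.HZ.ASUpper

/-!
MP_143e28_ag, project HW: the final step (helper54).
-/

set_option autoImplicit false

namespace Pool.Agent.Helper54.HW

open Polynomial Pool.Agent.Helper28.HA Pool.Agent.Helper54.HZ Pool.Agent.Helper28.HN

/-- the supremum (in `ℕ ∪ {∞}`) of the numbers of automorphisms of the curves of genus `g` over `k` which are Galois covers of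
the line of prime degree `n ≤ N g`, or have a tame indecomposable map of degree `n ≤ N g`, `n` not divisible by `p`, to the
line -/
noncomputable def muGrow.{u} (k : Type u) [Field k] (p : ℕ) (N : ℕ → ℕ) (g : ℕ) : ℕ∞ :=
  muPrm k p {n | n ≤ N g} (N g) g

theorem lowerG.{u} (p : ℕ) [Fact p.Prime] (hp : p ≠ 2) (k : Type u) [Field k] [IsAlgClosed k]
    [CharP k p] (N : ℕ → ℕ) {g : ℕ} (hg : 2 ≤ g) (hN : 2 ≤ N g) :
    ((8 * g : ℕ) : ℕ∞) ≤ muGrow k p N g := by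
  refine (lower_mu p hp k hg {n | n ≤ N g} hN).trans ?_
  unfold muCov muGrow muPrm
  refine sSup_le_sSup ?_
  rintro n ⟨F, i1, i2, hF, rfl⟩
  exact ⟨F, i1, i2, Or.inl hF, rfl⟩

theorem upperG.{u} (p : ℕ) [Fact p.Prime] (hp : p ≠ 2) (k : Type u) [Field k] [IsAlgClosed k]
    [CharP k p] {g N Q : ℕ} (h1 : p ∣ g + 1) (h2 : ¬ p ^ 2 ∣ g + 1) (h3 : 3 * p ^ 2 < g)
    (h4 : 5 ≤ p → ¬ p - 1 ∣ 2 * g)
    (hQ : ∀ n : ℕ, 2 ≤ n → n ≤ N → ∀ e v : ℕ, v < n → p ^ e ∣ 2 * g + 2 * n - 2 - v → p ^ e ≤ Q)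
    (hbig : ∀ n : ℕ, n ≤ N → n * (1 + 3 * Q + 2 * Q ^ 2) < g ∧ 15 * n ^ 2 ≤ g)
    (F : Type u) [Field F] [Algebra k F] (hF : IsPrm k F p {n | n ≤ N} N g) :
    Finite (F ≃ₐ[k] F) ∧ Nat.card (F ≃ₐ[k] F) ≤ 8 * g := by
  have hpp : p.Prime := Fact.out
  have hp2 := hpp.two_le
  have hg27 : 27 ≤ 3 * p ^ 2 := by
    have : 3 ≤ p := by omega
    nlinarith
  rcases hF with hF | ⟨n, -, hn, x, hF⟩
  · rcases hF with ⟨n, hn, x, y, f, hF⟩ | ⟨-, x, y, f, hF⟩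
    · have hn' : n ≤ N := hn
      exact cyc_upper p hp h1 h2 h3 (hQ n hF.prime.two_le hn') (hbig n hn').1 (hbig n hn').2 hF
    · by_cases hp3 : p = 3
      · subst hp3
        exact as_upper (by omega) h1 hF
      · exfalso
        have hp4 : p ≠ 4 := by
          rintro rfl
          exact absurd hpp (by norm_num)
        refine h4 (by omega) ?_
        have e1 : ((p : ℤ) - 1) ∣ 2 * g := ⟨_, hF.genus.symm⟩
        have e3 : (((p - 1 : ℕ) : ℤ)) ∣ ((2 * g : ℕ) : ℤ) := by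
          rw [Nat.cast_sub (by omega)]
          push_cast
          exact e1
        exact Int.natCast_dvd_natCast.1 e3
  · exact upperW p hp h1 h2 h3 (hQ n hF.two hn) (hbig n hn).1 (hbig n hn).2 hF

theorem exactG.{u} (p : ℕ) [Fact p.Prime] (hp : p ≠ 2) (k : Type u) [Field k] [IsAlgClosed k]
    [CharP k p] (N : ℕ → ℕ) (hN2 : ∀ g, 2 ≤ g → 2 ≤ N g)
    (hN : ∀ᶠ g in Filter.atTop, 9 * N g ^ 3 ≤ g) :
    ∃ E₀ : ℕ, 2 ≤ E₀ ∧ ∀ E : ℕ, E₀ ≤ E →
      muGrow k p N (p ^ E + p - 1) = ((8 * (p ^ E + p - 1) : ℕ) : ℕ∞) := by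
  have hpp : p.Prime := Fact.out
  obtain ⟨E₀, hE₀, h⟩ := sp_grow p hpp hp N hN2 hN
  refine ⟨E₀, hE₀, fun E hE => ?_⟩
  obtain ⟨h3, hpow, hbig⟩ := h E hE
  have hE2 : 2 ≤ E := hE₀.trans hE
  obtain ⟨h1, h2⟩ := sp_dvd p E hpp hE2
  have hg2 : 2 ≤ p ^ E + p - 1 := by
    have := hpp.two_le
    have : 4 ≤ p ^ 2 := by nlinarith
    omega
  refine le_antisymm ?_ (lowerG p hp k N hg2 (hN2 _ hg2))
  unfold muGrow muPrm
  refine sSup_le ?_
  rintro n ⟨F, _, _, hF, rfl⟩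
  obtain ⟨ha, hb⟩ := upperG p hp k (Q := 2 * p + 2 * N (p ^ E + p - 1)) h1 h2 h3
    (fun h5 => sp_as p E hpp h5) (sp_pow p E _ hpp hpow) hbig F hF
  rw [ENat.card_eq_coe_natCard]
  exact_mod_cast hb

theorem infG.{u} (p : ℕ) [Fact p.Prime] (hp : p ≠ 2) (k : Type u) [Field k] [IsAlgClosed k]
    [CharP k p] (N : ℕ → ℕ) (hN2 : ∀ g, 2 ≤ g → 2 ≤ N g)
    (hN : ∀ᶠ g in Filter.atTop, 9 * N g ^ 3 ≤ g) :
    {g : ℕ | 2 ≤ g ∧ muGrow k p N g = ((8 * g : ℕ) : ℕ∞)}.Infinite := by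
  have hpp : p.Prime := Fact.out
  obtain ⟨E₀, hE₀, h⟩ := exactG p hp k N hN2 hN
  rw [Set.infinite_iff_exists_gt]
  intro M
  have hEp : max E₀ M < p ^ max E₀ M := Nat.lt_pow_self hpp.one_lt
  have h1 : E₀ ≤ max E₀ M := le_max_left _ _
  have h2 : M ≤ max E₀ M := le_max_right _ _
  have hp2 := hpp.two_le
  exact ⟨p ^ max E₀ M + p - 1, ⟨by omega, h _ h1⟩, by omega⟩

theorem mainG.{u} (p : ℕ) [Fact p.Prime] (hp : p ≠ 2) (k : Type u) [Field k] [IsAlgClosed k]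
    [CharP k p] (N : ℕ → ℕ) (hN2 : ∀ g, 2 ≤ g → 2 ≤ N g)
    (hN : ∀ᶠ g in Filter.atTop, 9 * N g ^ 3 ≤ g) (M : ℚ[X]) :
    ((∀ g : ℕ, 2 ≤ g → ∀ m : ℕ, muGrow k p N g = m → M.eval (g : ℚ) ≤ m) ∧
      {g : ℕ | 2 ≤ g ∧ ∃ m : ℕ, muGrow k p N g = m ∧ M.eval (g : ℚ) = m}.Infinite) ↔
    M = C 8 * X := by
  have hsp := infG p hp k N hN2 hN
  constructor
  · rintro ⟨hM1, hM2⟩
    have : M - C 8 * X = 0 := by
      apply Pool.Agent.Helper54.HY.poly_zero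
      · refine hM2.mono ?_
        rintro g ⟨hg, m, hm, hM⟩
        have e1 := lowerG p hp k N hg (hN2 g hg)
        rw [hm] at e1
        have e2 : 8 * g ≤ m := by exact_mod_cast e1
        have e3 : ((8 * g : ℕ) : ℚ) ≤ m := by exact_mod_cast e2
        simp only [Set.mem_ofPred_eq, eval_sub, eval_mul, eval_C, eval_X, hM]
        push_cast at e3
        linarith
      · refine hsp.mono ?_
        rintro g ⟨hg, hg2⟩
        have e1 := hM1 g hg (8 * g) hg2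
        simp only [Set.mem_ofPred_eq, eval_sub, eval_mul, eval_C, eval_X]
        push_cast at e1
        linarith
    exact sub_eq_zero.1 this
  · rintro rfl
    refine ⟨?_, ?_⟩
    · intro g hg m hm
      have e1 := lowerG p hp k N hg (hN2 g hg)
      rw [hm] at e1
      have e2 : 8 * g ≤ m := by exact_mod_cast e1
      have e3 : ((8 * g : ℕ) : ℚ) ≤ m := by exact_mod_cast e2
      simp only [eval_mul, eval_C, eval_X]
      push_cast at e3
      linarith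
    · refine hsp.mono ?_
      rintro g ⟨hg, hg2⟩
      refine ⟨hg, 8 * g, hg2, ?_⟩
      simp only [eval_mul, eval_C, eval_X]
      push_cast
      ring

end Pool.Agent.Helper54.HW
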