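import Mathlib

/-!
MP_143e28_ag, project HW: `p ^ s - 1` does not divide `2 g`, `g = p ^ E + p - 1`, except for `p = 3`, `s = 1` (pure arithmetic).
-/

set_option autoImplicit false

namespace Pool.Agent.Helper54.HW

theorem sp_q (p s E : ℕ) (hp : p.Prime) (hp2 : p ≠ 2) (hs : 1 ≤ s)
    (h : p ^ s - 1 ∣ 2 * (p ^ E + p - 1)) : p = 3 ∧ s = 1 := by
  have hp3 : 3 ≤ p := by
    have := hp.two_le
    omega
  have hp4 : p ≠ 4 := by
    rintro rfl
    exact absurd hp (by norm_num)
  have h1 : p ^ s - 1 ∣ p ^ (s * (E / s)) - 1 := by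
    have := Nat.sub_dvd_pow_sub_pow (p ^ s) 1 (E / s)
    rw [one_pow, ← pow_mul] at this
    exact this
  have h2 : p ^ E = p ^ (E % s) * p ^ (s * (E / s)) := by
    rw [← pow_add, Nat.mod_add_div]
  have hfs : E % s ≤ s - 1 := by
    have := Nat.mod_lt E hs
    omega
  generalize E % s = f at h2 hfs
  generalize E / s = a at h1 h2
  have hA : 1 ≤ p ^ (s * a) := Nat.one_le_pow _ _ hp.pos
  have hB : 1 ≤ p ^ f := Nat.one_le_pow _ _ hp.pos
  have h3 : 2 * (p ^ E + p - 1) = 2 * (p ^ f * (p ^ (s * a) - 1)) + (2 * p ^ f + 2 * p - 2) := by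
    have e1 : p ^ E = p ^ f * (p ^ (s * a) - 1) + p ^ f := by
      rw [h2]
      conv_rhs => rw [← Nat.mul_succ]
      congr 1
      omega
    omega
  rw [h3] at h
  have h4 : p ^ s - 1 ∣ 2 * p ^ f + 2 * p - 2 :=
    (Nat.dvd_add_right ((h1.mul_left _).mul_left 2)).1 h
  have h5 : p ^ s - 1 ≤ 2 * p ^ f + 2 * p - 2 := Nat.le_of_dvd (by omega) h4
  have hf : p ^ f ≤ p ^ (s - 1) := Nat.pow_le_pow_right hp.pos hfs
  have hps : p ^ s = p * p ^ (s - 1) := by
    rw [← pow_succ']
    congr 1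
    omega
  rcases Nat.lt_or_ge s 2 with hs2 | hs2
  · have hs1 : s = 1 := by omega
    subst hs1
    have hf0 : f = 0 := by omega
    subst hf0
    refine ⟨?_, rfl⟩
    rw [pow_one, pow_zero] at h4
    have e1 : 2 * 1 + 2 * p - 2 = 2 * (p - 1) + 2 := by omega
    rw [e1] at h4
    have h6 := (Nat.dvd_add_right (Dvd.intro_left 2 rfl)).1 h4
    have h7 := Nat.le_of_dvd (by norm_num) h6
    omega
  · exfalso
    rcases Nat.lt_or_ge s 3 with hs3 | hs3
    · have hs1 : s = 2 := by omega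
      subst hs1
      have e1 : p ^ (2 - 1) = p := by norm_num
      rw [e1] at hf hps
      have hp33 : p = 3 := by
        by_contra hne
        have h7 : 5 * p ≤ p * p := Nat.mul_le_mul_right _ (by omega)
        omega
      subst hp33
      have hf1 : f = 0 ∨ f = 1 := by omega
      rcases hf1 with rfl | rfl
      · norm_num at h4
      · norm_num at h4
    · have e1 : p ^ 2 ≤ p ^ (s - 1) := Nat.pow_le_pow_right hp.pos (by omega)
      generalize p ^ (s - 1) = B at hf hps e1
      have e2 : 3 * B ≤ p * B := Nat.mul_le_mul_right _ hp3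
      have e3 : 3 * p ≤ p ^ 2 := by nlinarith
      have e4 : 9 ≤ p ^ 2 := by nlinarith
      omega

end Pool.Agent.Helper54.HW
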