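import Pool.Agent.Helper54.HW.Final2
import Pool.Agent.Helper54.HW.Low2
import Pool.Agent.Helper22.HG2.Up

/-!
MP_143e28_ag, project HW: the final step for all characteristics (helper54; `p = 2`: helper22).
-/

set_option autoImplicit false

namespace Pool.Agent.Helper54.HW

open Polynomial

/-- `4 g + 4` in characteristic 2, `8 g` otherwise -/
def lowG (p g : ℕ) : ℕ := if p = 2 then 4 * g + 4 else 8 * g

/-- special genera: `8 ^ E + 2 ^ E` in characteristic 2, `p ^ E + p - 1` otherwise -/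
def genG (p E : ℕ) : ℕ := if p = 2 then 8 ^ E + 2 ^ E else p ^ E + p - 1

/-- the polynomial: `4 T + 4` in characteristic 2, `8 T` otherwise -/
noncomputable def polG (p : ℕ) : ℚ[X] := if p = 2 then C 4 * X + C 4 else C 8 * X

theorem polG_eval (p g : ℕ) : (polG p).eval (g : ℚ) = (lowG p g : ℚ) := by
  unfold polG lowG
  split_ifs
  · simp
  · simp

theorem le_genG (p E : ℕ) (hp : p.Prime) : E ≤ genG p E := by
  have h1 : E < p ^ E := Nat.lt_pow_self hp.one_lt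
  have h2 : E < 8 ^ E := Nat.lt_pow_self (by norm_num)
  have := hp.two_le
  unfold genG
  split_ifs
  · exact h2.le.trans (Nat.le_add_right _ _)
  · omega

theorem lowerA.{u} (p : ℕ) [Fact p.Prime] (k : Type u) [Field k] [IsAlgClosed k]
    [CharP k p] (N : ℕ → ℕ) {g : ℕ} (hg : 2 ≤ g) (hN : 3 ≤ N g) :
    ((lowG p g : ℕ) : ℕ∞) ≤ muGrow k p N g := by
  unfold lowG
  by_cases hp : p = 2
  · subst hp
    rw [if_pos rfl]
    exact lowerG2 k N hg hN
  · rw [if_neg hp]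
    exact lowerG p hp k N hg (by omega)

theorem exactA.{u} (p : ℕ) [Fact p.Prime] (k : Type u) [Field k] [IsAlgClosed k]
    [CharP k p] (N : ℕ → ℕ) (hN3 : ∀ g, 2 ≤ g → 3 ≤ N g)
    (hN : ∀ᶠ g in Filter.atTop, 9 * N g ^ 3 ≤ g) :
    ∃ E₀ : ℕ, 2 ≤ E₀ ∧ ∀ E : ℕ, E₀ ≤ E → muGrow k p N (genG p E) = ((lowG p (genG p E) : ℕ) : ℕ∞) := by
  by_cases hp : p = 2
  · subst hp
    obtain ⟨v₀, h3, h⟩ := Pool.Agent.Helper22.HG2.upperG2 (k := k) N hN
    refine ⟨v₀, by omega, fun E hE => ?_⟩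
    have hg : 2 ≤ genG 2 E := by
      have := le_genG 2 E Nat.prime_two
      omega
    refine le_antisymm ?_ (lowerA 2 k N hg (hN3 _ hg))
    unfold genG lowG
    rw [if_pos rfl, if_pos rfl]
    exact h E hE
  · obtain ⟨E₀, hE₀, h⟩ := exactG p hp k N (fun g hg => (by have := hN3 g hg; omega)) hN
    refine ⟨E₀, hE₀, fun E hE => ?_⟩
    unfold genG lowG
    rw [if_neg hp, if_neg hp]
    exact h E hE

theorem infA.{u} (p : ℕ) [Fact p.Prime] (k : Type u) [Field k] [IsAlgClosed k]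
    [CharP k p] (N : ℕ → ℕ) (hN3 : ∀ g, 2 ≤ g → 3 ≤ N g)
    (hN : ∀ᶠ g in Filter.atTop, 9 * N g ^ 3 ≤ g) :
    {g : ℕ | 2 ≤ g ∧ muGrow k p N g = ((lowG p g : ℕ) : ℕ∞)}.Infinite := by
  have hpp : p.Prime := Fact.out
  obtain ⟨E₀, hE₀, h⟩ := exactA p k N hN3 hN
  rw [Set.infinite_iff_exists_gt]
  intro M
  have h1 : E₀ ≤ max E₀ (M + 1) := le_max_left _ _
  have h2 : M + 1 ≤ max E₀ (M + 1) := le_max_right _ _
  have h3 := le_genG p (max E₀ (M + 1)) hpp
  exact ⟨genG p (max E₀ (M + 1)), ⟨by omega, h _ h1⟩, by omega⟩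

theorem mainA.{u} (p : ℕ) [Fact p.Prime] (k : Type u) [Field k] [IsAlgClosed k]
    [CharP k p] (N : ℕ → ℕ) (hN3 : ∀ g, 2 ≤ g → 3 ≤ N g)
    (hN : ∀ᶠ g in Filter.atTop, 9 * N g ^ 3 ≤ g) (M : ℚ[X]) :
    ((∀ g : ℕ, 2 ≤ g → ∀ m : ℕ, muGrow k p N g = m → M.eval (g : ℚ) ≤ m) ∧
      {g : ℕ | 2 ≤ g ∧ ∃ m : ℕ, muGrow k p N g = m ∧ M.eval (g : ℚ) = m}.Infinite) ↔
    M = polG p := by
  have hsp := infA p k N hN3 hN
  constructor
  · rintro ⟨hM1, hM2⟩
    have : M - polG p = 0 := by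
      apply Pool.Agent.Helper54.HY.poly_zero
      · refine hM2.mono ?_
        rintro g ⟨hg, m, hm, hM⟩
        have e1 := lowerA p k N hg (hN3 g hg)
        rw [hm] at e1
        have e2 : lowG p g ≤ m := by exact_mod_cast e1
        have e3 : (lowG p g : ℚ) ≤ m := by exact_mod_cast e2
        simp only [Set.mem_ofPred_eq, eval_sub, polG_eval, hM]
        linarith
      · refine hsp.mono ?_
        rintro g ⟨hg, hg2⟩
        have e1 := hM1 g hg (lowG p g) hg2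
        simp only [Set.mem_ofPred_eq, eval_sub, polG_eval]
        linarith
    exact sub_eq_zero.1 this
  · rintro rfl
    refine ⟨?_, ?_⟩
    · intro g hg m hm
      have e1 := lowerA p k N hg (hN3 g hg)
      rw [hm] at e1
      have e2 : lowG p g ≤ m := by exact_mod_cast e1
      rw [polG_eval]
      exact_mod_cast e2
    · refine hsp.mono ?_
      rintro g ⟨hg, hg2⟩
      exact ⟨hg, lowG p g, hg2, polG_eval p g⟩

end Pool.Agent.Helper54.HW
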