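import Pool.Agent.Helper54.HW.Cyc
import Pool.Agent.Helper28.HN.Mem
import Pool.Agent.Helper28.HN.Grp
import Pool.Agent.Helper28.HN.Kum
import Pool.Agent.Helper28.HN.Gen

/-!
MP_143e28_ag, project HW: tame indecomposable maps of degree `n ≤ N` (helper54; as `HN/Upper.lean`, the bound is
`2 W = 2 (2 g + 2 n - 2) ≤ 8 g`).
-/

set_option autoImplicit false

namespace Pool.Agent.Helper54.HW

open Polynomial Pool.Agent.Helper28.HA Pool.Agent.Helper54.HZ Pool.Agent.Helper28.HN

theorem upperW.{u} (p : ℕ) [Fact p.Prime] (hp : p ≠ 2) {k F : Type u} [Field k] [IsAlgClosed k]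
    [CharP k p] [Field F] [Algebra k F] {g n Q : ℕ} (h1 : p ∣ g + 1) (h2 : ¬ p ^ 2 ∣ g + 1)
    (h3 : 3 * p ^ 2 < g)
    (hQ : ∀ e v : ℕ, v < n → p ^ e ∣ 2 * g + 2 * n - 2 - v → p ^ e ≤ Q)
    (hbig : n * (1 + 3 * Q + 2 * Q ^ 2) < g) (hng : 15 * n ^ 2 ≤ g) {x : F} (h : PresD k F p n g x) :
    Finite (F ≃ₐ[k] F) ∧ Nat.card (F ≃ₐ[k] F) ≤ 8 * g := by
  have hn2 : 2 ≤ n := h.two
  have hgn : (n - 1) ^ 2 < g := by
    have e1 : (n - 1) ^ 2 ≤ n ^ 2 := Nat.pow_le_pow_left (Nat.sub_le n 1) 2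
    have e2 : 1 ≤ n ^ 2 := Nat.one_le_pow _ _ (by omega)
    omega
  have hng' : 60 ≤ g ∧ n ≤ g := by
    have e1 : 2 ^ 2 ≤ n ^ 2 := Nat.pow_le_pow_left hn2 2
    have e2 : n ≤ n ^ 2 := Nat.le_self_pow (by norm_num) n
    omega
  have hmem : ∀ s : F ≃ₐ[k] F, s x ∈ IntermediateField.adjoin k {x} := fun s => d_mem hgn h s
  by_cases hker : ∀ s : F ≃ₐ[k] F, s x = x → s = 1
  · obtain ⟨G, hG, hw, hfin⟩ := d_group n h.trans hmem hker
    -- the support of the weight
    have hsupp : (Function.support (ramD n h.trans)).Finite := by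
      by_contra hinf
      have := h.genus
      rw [finsum_of_infinite_support hinf] at this
      omega
    have hcard : 3 ≤ Nat.card (Function.support (ramD n h.trans)) := by
      have e1 := h.genus
      rw [finsum_eq_sum_of_support_subset (ramD n h.trans) (s := hsupp.toFinset) (by simp)] at e1
      have e2 : ∑ P ∈ hsupp.toFinset, ramD n h.trans P ≤ ∑ _P ∈ hsupp.toFinset, (n - 1) :=
        Finset.sum_le_sum (fun P _ => ramD_le n h.trans P)
      rw [Finset.sum_const, smul_eq_mul] at e2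
      have e3 : Nat.card (Function.support (ramD n h.trans)) = hsupp.toFinset.card := by
        rw [Nat.card_coe_set_eq, Set.ncard_eq_toFinset_card _ hsupp]
      by_contra hlt
      have e4 : hsupp.toFinset.card * (n - 1) ≤ 2 * (n - 1) := Nat.mul_le_mul_right _ (by omega)
      omega
    obtain ⟨hGf, -⟩ := mob_finite G hG (Function.support (ramD n h.trans)) hsupp hcard (by
      intro s hs P hP
      simp only [Function.mem_support] at hP ⊢
      rw [hw s hs P]
      exact hP)
    obtain ⟨ha, hb⟩ := hfin hGf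
    haveI := hGf
    have hgen : ∑ᶠ P, ramD n h.trans P = 2 * g + 2 * n - 2 := by
      have := h.genus
      omega
    refine ⟨ha, hb.trans ((boundW p hp G hG (ramD n h.trans) hw n Q (2 * g + 2 * n - 2) hn2
      (fun P => ?_) hgen hQ (by omega) (by omega)).trans (by omega))⟩
    have := ramD_le n h.trans P
    omega
  · push Not at hker
    obtain ⟨s, hsx, hs1⟩ := hker
    obtain ⟨hnp, y, f, hgen, hf, hm, hy, hyx⟩ := d_kum h.two h.char h.trans h.deg h.simple s hs1 hsx
    have hP := d_gen hnp h hgen hf hm hy hyx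
    exact cyc_upper p hp h1 h2 h3 hQ hbig hng hP

end Pool.Agent.Helper54.HW
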